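import Pool.Agent.Helper14.TK.StA

/-!
# Project T3K, part A, module KST: step of the induction for the kernel, with signs
-/

set_option autoImplicit false

open Pool.Agent.Helper78.W3 Pool.Agent.Helper14.W3 Pool.Agent.Helper14.CV
open Pool.Agent.Helper14.T3 Pool.Agent.Helper14.TK
open Pool.Agent.Helper14.TT (eXb)

namespace Pool.Agent.Helper25.TA

/-- average over the translations by thirds -/
private noncomputable def M1 (x : ℤ → ℤ → ℂ) : ℤ → ℤ → ℂ := (1 / 3 : ℂ) • (x + act 3 1 0 3 x + act 3 2 0 3 x)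

/-- average over the lower unipotent matrices -/
private noncomputable def M2 (n : ℕ) (x : ℤ → ℤ → ℂ) : ℤ → ℤ → ℂ :=
  (1 / 3 : ℂ) • (x + act 1 0 (3 ^ (n - 1)) 1 x + act 1 0 (2 * 3 ^ (n - 1)) 1 x)

private lemma dt1 : (3 : ℤ) * 3 - 1 * 0 ≠ 0 := by norm_num
private lemma dt2 : (3 : ℤ) * 3 - 2 * 0 ≠ 0 := by norm_num
private lemma ds1 (n : ℕ) : (1 : ℤ) * 1 - 0 * 3 ^ (n - 1) ≠ 0 := by norm_num
private lemma ds2 (n : ℕ) : (1 : ℤ) * 1 - 0 * (2 * 3 ^ (n - 1)) ≠ 0 := by norm_num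
private lemma dx : (-1 : ℤ) * 1 - 0 * 0 ≠ 0 := by norm_num
private lemma dw (n : ℕ) : (0 : ℤ) * 0 - (-1) * 3 ^ n ≠ 0 := by
  have : (3 : ℤ) ^ n ≠ 0 := pow_ne_zero _ three_ne_zero
  intro h
  apply this
  linarith

private lemma M1_congr {x y : ℤ → ℤ → ℂ} (h : EqC x y) : EqC (M1 x) (M1 y) :=
  ((h.add (h.act dt1)).add (h.act dt2)).smul (1 / 3 : ℂ)

private lemma M2_congr (n : ℕ) {x y : ℤ → ℤ → ℂ} (h : EqC x y) : EqC (M2 n x) (M2 n y) :=
  ((h.add (h.act (ds1 n))).add (h.act (ds2 n))).smul (1 / 3 : ℂ)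

private lemma M1_sub (x y : ℤ → ℤ → ℂ) : M1 (x - y) = M1 x - M1 y := by
  unfold M1
  rw [act_sub, act_sub, ← smul_sub]
  congr 1
  abel

private lemma M2_sub (n : ℕ) (x y : ℤ → ℤ → ℂ) : M2 n (x - y) = M2 n x - M2 n y := by
  unfold M2
  rw [act_sub, act_sub, ← smul_sub]
  congr 1
  abel

private lemma M1_neg (x : ℤ → ℤ → ℂ) : M1 (-x) = -M1 x := by
  unfold M1
  rw [act_neg, act_neg, ← smul_neg]
  congr 1
  abel

private lemma M2_neg (n : ℕ) (x : ℤ → ℤ → ℂ) : M2 n (-x) = -M2 n x := by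
  unfold M2
  rw [act_neg, act_neg, ← smul_neg]
  congr 1
  abel

private lemma M1_zsmul (k : ℤ) (x : ℤ → ℤ → ℂ) : M1 (k • x) = k • M1 x := by
  unfold M1
  rw [act_smul, act_smul, ← smul_add, ← smul_add, smul_comm k (1 / 3 : ℂ)]

private lemma M2_zsmul (n : ℕ) (k : ℤ) (x : ℤ → ℤ → ℂ) : M2 n (k • x) = k • M2 n x := by
  unfold M2
  rw [act_smul, act_smul, ← smul_add, ← smul_add, smul_comm k (1 / 3 : ℂ)]

private lemma M2_zero (n : ℕ) : M2 n 0 = 0 := by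
  have h := M2_sub n 0 0
  rwa [sub_self, sub_self] at h

/-- `1/3 (a + b + c)` -/
private lemma third {a b c a' b' c' : ℤ → ℤ → ℂ} (h1 : EqC a a') (h2 : EqC b b') (h3 : EqC c c') :
    EqC ((1 / 3 : ℂ) • (a + b + c)) ((1 / 3 : ℂ) • (a' + b' + c')) := ((h1.add h2).add h3).smul _

private lemma third' {a b c a' b' c' : ℤ → ℤ → ℂ} (h1 : EqC a a') (h2 : EqC b c') (h3 : EqC c b') :
    EqC ((1 / 3 : ℂ) • (a + b + c)) ((1 / 3 : ℂ) • (a' + b' + c')) := by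
  have h := third h1 h2 h3
  rwa [show a' + c' + b' = a' + b' + c' by abel] at h

section rel

variable (hCom : S3Com) {n : ℕ} (hn : 3 ≤ n) {x : ℤ → ℤ → ℂ} (hx : Sym3 0 n x)

include hCom hn hx

private lemma rt1 : EqC (act 3 (-1) 0 3 x) (act 3 2 0 3 x) := by
  have h := (hCom n x hn hx).2.2.2.2.2.2.2.2.2.2.2.2.1 (-1)
  rw [show (-1 : ℤ) + 3 = 2 by norm_num] at h
  exact h.symm

private lemma rt2 : EqC (act 3 (-2) 0 3 x) (act 3 1 0 3 x) := by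
  have h := (hCom n x hn hx).2.2.2.2.2.2.2.2.2.2.2.2.1 (-2)
  rw [show (-2 : ℤ) + 3 = 1 by norm_num] at h
  exact h.symm

private lemma rs1 : EqC (act 1 0 (-1 * 3 ^ (n - 1)) 1 x) (act 1 0 (2 * 3 ^ (n - 1)) 1 x) := by
  have h := (hCom n x hn hx).2.2.2.2.2.2.2.2.2.2.2.2.2 (-1)
  rw [show (-1 : ℤ) + 3 = 2 by norm_num] at h
  exact h.symm

private lemma rs2 : EqC (act 1 0 (-2 * 3 ^ (n - 1)) 1 x) (act 1 0 (3 ^ (n - 1)) 1 x) := by
  have h := (hCom n x hn hx).2.2.2.2.2.2.2.2.2.2.2.2.2 (-2)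
  rw [show (-2 : ℤ) + 3 = 1 by norm_num, one_mul] at h
  exact h.symm

/-- `t M1 = M1` -/
private lemma tM1 : EqC (act 3 1 0 3 (M1 x)) (M1 x) := by
  have c := hCom n x hn hx
  have h : EqC ((1 / 3 : ℂ) • (act 3 1 0 3 x + act 3 1 0 3 (act 3 1 0 3 x) + act 3 1 0 3 (act 3 2 0 3 x)))
      ((1 / 3 : ℂ) • (act 3 1 0 3 x + act 3 2 0 3 x + x)) := third (EqC.refl _) c.1 c.2.1
  rw [show act 3 1 0 3 x + act 3 2 0 3 x + x = x + act 3 1 0 3 x + act 3 2 0 3 x by abel] at h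
  exact h

/-- `σ M2 = M2` -/
private lemma sM2 : EqC (act 1 0 (3 ^ (n - 1)) 1 (M2 n x)) (M2 n x) := by
  have c := hCom n x hn hx
  have h : EqC ((1 / 3 : ℂ) • (act 1 0 (3 ^ (n - 1)) 1 x + act 1 0 (3 ^ (n - 1)) 1 (act 1 0 (3 ^ (n - 1)) 1 x) +
      act 1 0 (3 ^ (n - 1)) 1 (act 1 0 (2 * 3 ^ (n - 1)) 1 x)))
      ((1 / 3 : ℂ) • (act 1 0 (3 ^ (n - 1)) 1 x + act 1 0 (2 * 3 ^ (n - 1)) 1 x + x)) :=
    third (EqC.refl _) c.2.2.1 c.2.2.2.1
  rw [show act 1 0 (3 ^ (n - 1)) 1 x + act 1 0 (2 * 3 ^ (n - 1)) 1 x + x =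
    x + act 1 0 (3 ^ (n - 1)) 1 x + act 1 0 (2 * 3 ^ (n - 1)) 1 x by abel] at h
  exact h

/-- `W M1 = M2 W` -/
private lemma WM1 : EqC (act 0 (-1) (3 ^ n) 0 (M1 x)) (M2 n (act 0 (-1) (3 ^ n) 0 x)) := by
  have c := (hCom n x hn hx).2.2.2.2.2.2.2.2.1
  have h1 : EqC (act 1 0 (3 ^ (n - 1)) 1 (act 0 (-1) (3 ^ n) 0 x)) (act 0 (-1) (3 ^ n) 0 (act 3 2 0 3 x)) := by
    have h := c 1
    rw [one_mul] at h
    exact h.trans ((rt1 hCom hn hx).act (dw n))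
  have h2 : EqC (act 1 0 (2 * 3 ^ (n - 1)) 1 (act 0 (-1) (3 ^ n) 0 x)) (act 0 (-1) (3 ^ n) 0 (act 3 1 0 3 x)) :=
    (c 2).trans ((rt2 hCom hn hx).act (dw n))
  exact third' (EqC.refl _) h2.symm h1.symm

/-- `W M2 = M1 W` -/
private lemma WM2 : EqC (act 0 (-1) (3 ^ n) 0 (M2 n x)) (M1 (act 0 (-1) (3 ^ n) 0 x)) := by
  have c := (hCom n x hn hx).2.2.2.2.2.2.2.1
  have h1 : EqC (act 3 1 0 3 (act 0 (-1) (3 ^ n) 0 x)) (act 0 (-1) (3 ^ n) 0 (act 1 0 (2 * 3 ^ (n - 1)) 1 x)) :=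
    (c 1).trans ((rs1 hCom hn hx).act (dw n))
  have h2 : EqC (act 3 2 0 3 (act 0 (-1) (3 ^ n) 0 x)) (act 0 (-1) (3 ^ n) 0 (act 1 0 (3 ^ (n - 1)) 1 x)) :=
    (c 2).trans ((rs2 hCom hn hx).act (dw n))
  exact third' (EqC.refl _) h2.symm h1.symm

/-- `* M1 = M1 *` -/
private lemma xM1 : EqC (act (-1) 0 0 1 (M1 x)) (M1 (act (-1) 0 0 1 x)) := by
  have c := (hCom n x hn hx).2.2.2.2.2.2.2.2.2.1
  have h1 : EqC (act 3 1 0 3 (act (-1) 0 0 1 x)) (act (-1) 0 0 1 (act 3 2 0 3 x)) :=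
    (c 1).trans ((rt1 hCom hn hx).act dx)
  have h2 : EqC (act 3 2 0 3 (act (-1) 0 0 1 x)) (act (-1) 0 0 1 (act 3 1 0 3 x)) :=
    (c 2).trans ((rt2 hCom hn hx).act dx)
  exact third' (EqC.refl _) h2.symm h1.symm

/-- `* M2 = M2 *` -/
private lemma xM2 : EqC (act (-1) 0 0 1 (M2 n x)) (M2 n (act (-1) 0 0 1 x)) := by
  have c := (hCom n x hn hx).2.2.2.2.2.2.2.2.2.2.1
  have h1 : EqC (act 1 0 (3 ^ (n - 1)) 1 (act (-1) 0 0 1 x)) (act (-1) 0 0 1 (act 1 0 (2 * 3 ^ (n - 1)) 1 x)) := by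
    have h := c 1
    rw [one_mul] at h
    exact h.trans ((rs1 hCom hn hx).act dx)
  have h2 : EqC (act 1 0 (2 * 3 ^ (n - 1)) 1 (act (-1) 0 0 1 x)) (act (-1) 0 0 1 (act 1 0 (3 ^ (n - 1)) 1 x)) :=
    (c 2).trans ((rs2 hCom hn hx).act dx)
  exact third' (EqC.refl _) h2.symm h1.symm

/-- `M1 M2 = M2 M1` -/
private lemma M12 : EqC (M1 (M2 n x)) (M2 n (M1 x)) := by
  have c := (hCom n x hn hx).2.2.2.2.2.2.1
  have h1 := c 1 1
  have h2 := c 2 1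
  rw [one_mul] at h1 h2
  have h3 := c 1 2
  have h4 := c 2 2
  -- `t (M2 x) ≈ M2 (t x)`
  have k1 : EqC (act 3 1 0 3 (M2 n x)) (M2 n (act 3 1 0 3 x)) := third (EqC.refl _) h1 h3
  have k2 : EqC (act 3 2 0 3 (M2 n x)) (M2 n (act 3 2 0 3 x)) := third (EqC.refl _) h2 h4
  have k3 : EqC (M1 (M2 n x)) ((1 / 3 : ℂ) • (M2 n x + M2 n (act 3 1 0 3 x) + M2 n (act 3 2 0 3 x))) :=
    third (EqC.refl _) k1 k2
  have e : (1 / 3 : ℂ) • (M2 n x + M2 n (act 3 1 0 3 x) + M2 n (act 3 2 0 3 x)) = M2 n (M1 x) := by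
    funext p q
    simp only [M1, M2, act, Pi.add_apply, Pi.smul_apply, smul_eq_mul]
    ring
  rw [e] at k3
  exact k3

/-- `M1 M1 = M1` -/
private lemma M11 (hs : Sym3 0 n (M1 x)) : EqC (M1 (M1 x)) (M1 x) := by
  have h1 := tM1 hCom hn hx
  have h2 : EqC (act 3 2 0 3 (M1 x)) (M1 x) :=
    (hCom n (M1 x) hn hs).1.symm.trans ((h1.act dt1).trans h1)
  have h3 : EqC (M1 (M1 x)) ((1 / 3 : ℂ) • (M1 x + M1 x + M1 x)) := third (EqC.refl _) h1 h2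
  have e : (1 / 3 : ℂ) • (M1 x + M1 x + M1 x) = M1 x := by
    funext p q
    simp only [Pi.smul_apply, Pi.add_apply, smul_eq_mul]
    ring
  rw [e] at h3
  exact h3

/-- `M2 M2 = M2` -/
private lemma M22 (hs : Sym3 0 n (M2 n x)) : EqC (M2 n (M2 n x)) (M2 n x) := by
  have h1 := sM2 hCom hn hx
  have h2 : EqC (act 1 0 (2 * 3 ^ (n - 1)) 1 (M2 n x)) (M2 n x) :=
    (hCom n (M2 n x) hn hs).2.2.1.symm.trans ((h1.act (ds1 n)).trans h1)
  have h3 : EqC (M2 n (M2 n x)) ((1 / 3 : ℂ) • (M2 n x + M2 n x + M2 n x)) := third (EqC.refl _) h1 h2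
  have e : (1 / 3 : ℂ) • (M2 n x + M2 n x + M2 n x) = M2 n x := by
    funext p q
    simp only [Pi.smul_apply, Pi.add_apply, smul_eq_mul]
    ring
  rw [e] at h3
  exact h3

end rel

private lemma avg0 {x y z : ℤ → ℤ → ℂ} (h : EqC ((1 / 3 : ℂ) • (x + y + z)) 0) : EqC (x + y + z) 0 := by
  have h2 := h.smul (3 : ℂ)
  rw [smul_smul, smul_zero] at h2
  norm_num at h2
  exact h2

/-- `W' W' = 1` -/
private lemma WW (k : ℕ) {x : ℤ → ℤ → ℂ} (hx : Homog x) :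
    EqC (act 0 (-1) (3 ^ k) 0 (act 0 (-1) (3 ^ k) 0 x)) x := by
  have h := hx.scale (a := 1) (b := 0) (c := 0) (d := 1) (-(3 : ℤ) ^ k)
    (neg_ne_zero.2 (pow_ne_zero _ three_ne_zero)) (by norm_num)
  rw [act_one] at h
  have e : act 0 (-1) (3 ^ k) 0 (act 0 (-1) (3 ^ k) 0 x) =
      act (-(3 : ℤ) ^ k * 1) (-(3 : ℤ) ^ k * 0) (-(3 : ℤ) ^ k * 0) (-(3 : ℤ) ^ k * 1) x := by
    rw [act_act]
    congr 1 <;> ring
  rw [e]
  exact h

/-- `* W' = W' *` -/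
private lemma SW (k : ℕ) {x : ℤ → ℤ → ℂ} (hx : Homog x) :
    EqC (act (-1) 0 0 1 (act 0 (-1) (3 ^ k) 0 x)) (act 0 (-1) (3 ^ k) 0 (act (-1) 0 0 1 x)) := by
  have h := hx.scale (a := 0) (b := 1) (c := 3 ^ k) (d := 0) (-1) (by norm_num)
    (by
      have : (3 : ℤ) ^ k ≠ 0 := pow_ne_zero _ three_ne_zero
      intro h
      apply this
      linarith)
  have e1 : act (-1) 0 0 1 (act 0 (-1) (3 ^ k) 0 x) = act (-1 * 0) (-1 * 1) (-1 * 3 ^ k) (-1 * 0) x := by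
    rw [act_act]
    congr 1 <;> ring
  have e2 : act 0 (-1) (3 ^ k) 0 (act (-1) 0 0 1 x) = act 0 1 (3 ^ k) 0 x := by
    rw [act_act]
    congr 1 <;> ring
  rw [e1, e2]
  exact h

/-- the two forms of the twisted value -/
private lemma evTb_one (D : ℕ) (G : ℤ → ℤ → ℂ) (i j : ℕ) : evTb D 1 G i j = evT D G i j := by
  rw [evT_apply]
  unfold evTb eXb Pool.Agent.Helper76.TX.eX
  refine Finset.sum_congr rfl fun a _ => ?_
  rw [one_mul]

private lemma kw_sq {s : ℤ} (hs : s = 1 ∨ s = -1) (n : ℕ) : kw s n * kw s n = 1 := by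
  unfold kw
  rcases hs with rfl | rfl <;> rcases neg_one_pow_eq_or ℤ n with h | h <;> rw [h] <;> norm_num

private lemma kw_pred (s : ℤ) {n : ℕ} (hn : 1 ≤ n) : kw s (n - 1) = -kw s n := by
  obtain ⟨k, rfl⟩ : ∃ k, n = k + 1 := ⟨n - 1, by omega⟩
  unfold kw
  rw [Nat.add_sub_cancel, pow_succ]
  ring

/-- KST. -/
theorem hKST : StKST := by
  intro hNrm _ hLvl hCom hNex hEvU D s dd hH m G hm hG hW hS hev
  have hm2 : 2 ≤ m := by omega
  have hm1 : 2 ≤ m - 1 := by omega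
  have hκ : kw s m * kw s m = 1 := kw_sq hH.sg m
  have hκ' : kw s (m - 1) = -kw s m := kw_pred s (by omega)
  set κ : ℤ := kw s m with hκd
  have κκ : ∀ x : ℤ → ℤ → ℂ, κ • (κ • x) = x := fun x => by rw [smul_smul, hκ, one_smul]
  have sM : ∀ x : ℤ → ℤ → ℂ, Sym3 0 m x → Sym3 0 m (M1 x) := fun x hx =>
    ((hx.add (hNrm m x hm2 hx).2.1).add (hNrm m x hm2 hx).2.2.1).smul _
  have sN : ∀ x : ℤ → ℤ → ℂ, Sym3 0 m x → Sym3 0 m (M2 m x) := fun x hx =>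
    ((hx.add (hNrm m x hm2 hx).2.2.2.1).add (hNrm m x hm2 hx).2.2.2.2.1).smul _
  set A : ℤ → ℤ → ℂ := M1 G with hA
  set B : ℤ → ℤ → ℂ := G - A with hB
  set C : ℤ → ℤ → ℂ := M2 m B with hC
  set E : ℤ → ℤ → ℂ := B - C with hE
  have sA : Sym3 0 m A := sM G hG
  have sB : Sym3 0 m B := hG.sub sA
  have sC : Sym3 0 m C := sN B sB
  have sE : Sym3 0 m E := sB.sub sC
  have tA : EqC (act 3 1 0 3 A) A := tM1 hCom hm hG
  have σC : EqC (act 1 0 (3 ^ (m - 1)) 1 C) C := sM2 hCom hm sB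
  -- averages of `B` and `E`
  have mB : EqC (M1 B) 0 := by
    have h := (EqC.refl (M1 G)).sub (M11 hCom hm hG sA)
    rw [← M1_sub] at h
    rw [← hA, sub_self] at h
    exact h
  have mC : EqC (M1 C) 0 := by
    have h1 := (M12 hCom hm sB).trans (M2_congr m mB)
    rw [M2_zero] at h1
    exact h1
  have mE : EqC (M1 E) 0 := by
    have h := mB.sub mC
    rw [← M1_sub, sub_zero] at h
    exact h
  have nE : EqC (M2 m E) 0 := by
    have h := (EqC.refl (M2 m B)).sub (M22 hCom hm sB sC)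
    rw [← M2_sub] at h
    rw [← hC, sub_self] at h
    exact h
  -- `W`
  have WA : EqC (act 0 (-1) (3 ^ m) 0 A) (-(κ • M2 m G)) := by
    have h := (WM1 hCom hm hG).trans (M2_congr m hW)
    rw [M2_neg, M2_zsmul] at h
    exact h
  have WB : EqC (act 0 (-1) (3 ^ m) 0 B) (-(κ • (G - M2 m G))) := by
    have h := hW.sub WA
    rw [← act_sub] at h
    rw [show -(κ • (G - M2 m G)) = -(κ • G) - -(κ • M2 m G) by rw [smul_sub]; abel]
    exact h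
  have WC : EqC (act 0 (-1) (3 ^ m) 0 C) (-(κ • (M1 G - M1 (M2 m G)))) := by
    have h := (WM2 hCom hm sB).trans (M1_congr WB)
    rw [M1_neg, M1_zsmul, M1_sub] at h
    exact h
  have WE : EqC (act 0 (-1) (3 ^ m) 0 E) (-(κ • E)) := by
    have h := WB.sub WC
    rw [← act_sub] at h
    refine h.trans ?_
    have h2 : EqC (-(κ • (G - M2 m G)) - -(κ • (M1 G - M1 (M2 m G))))
        (-(κ • (G - M2 m G)) - -(κ • (M1 G - M2 m (M1 G)))) :=
      (EqC.refl _).sub (((EqC.refl (M1 G)).sub (M12 hCom hm hG)).smul κ).neg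
    refine h2.trans ?_
    have e : -(κ • (G - M2 m G)) - -(κ • (M1 G - M2 m (M1 G))) = -(κ • E) := by
      rw [hE, hC, hB, M2_sub, hA]
      simp only [smul_sub]
      abel
    rw [e]
    exact EqC.refl _
  -- `*`
  have SA : EqC (act (-1) 0 0 1 A) (s • A) := by
    have h := (xM1 hCom hm hG).trans (M1_congr hS)
    rw [M1_zsmul] at h
    exact h
  have SB : EqC (act (-1) 0 0 1 B) (s • B) := by
    have h := hS.sub SA
    rw [← act_sub, ← smul_sub] at h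
    exact h
  have SC : EqC (act (-1) 0 0 1 C) (s • C) := by
    have h := (xM2 hCom hm sB).trans (M2_congr m SB)
    rw [M2_zsmul] at h
    exact h
  have SE : EqC (act (-1) 0 0 1 E) (s • E) := by
    have h := SB.sub SC
    rw [← act_sub, ← smul_sub] at h
    exact h
  -- levels
  have lC : Sym3 0 (m - 1) C := (hLvl m C hm2 sC).1 σC
  have lA : Sym3 0 (m - 1) (act 0 (-1) (3 ^ m) 0 A) := (hLvl m A hm2 sA).2 tA
  set A' : ℤ → ℤ → ℂ := act 0 (-1) (3 ^ m) 0 A with hA'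
  have sum : G = A + C + E := by
    rw [hE, hB]
    abel
  have E0 : EqC E 0 := by
    refine hNex D s dd hH m (C - κ • A') E hm (lC.sub (lA.smul κ)) ⟨sE, avg0 mE, avg0 nE, WE, SE⟩ ?_
    have h1 := hev
    rw [sum, map_add, map_add] at h1
    have h2 : evT D A' = -(κ • evT D A) := (hH.sgn m A hm2 sA).1
    have h3 : κ • evT D A' = -evT D A := by
      rw [h2, smul_neg, smul_smul, hκ, one_smul]
    rw [map_sub, map_zsmul, h3, sub_neg_eq_add, add_comm (evT D C)]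
    exact h1
  have GAC : EqC G (A + C) := by
    have h3 : EqC (A + C + E) (A + C + 0) := (EqC.refl (A + C)).add E0
    rw [← sum, add_zero] at h3
    exact h3
  -- the potential `ω`
  set ω : ℤ → ℤ → ℂ := (1 / 2 : ℂ) • (C - κ • A') with hω
  have lω : Sym3 0 (m - 1) ω := (lC.sub (lA.smul κ)).smul _
  have SA' : EqC (act (-1) 0 0 1 A') (s • A') := by
    have h := (hCom m A hm sA).2.2.2.2.2.2.2.2.2.2.2.1.symm.trans (SA.act (dw m))
    rw [act_smul] at h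
    exact h
  have Sω : EqC (act (-1) 0 0 1 ω) (s • ω) := by
    have h : EqC (act (-1) 0 0 1 ω) ((1 / 2 : ℂ) • (s • C - κ • (s • A'))) :=
      (SC.sub (SA'.smul κ)).smul (1 / 2 : ℂ)
    have e : (1 / 2 : ℂ) • (s • C - κ • (s • A')) = s • ω := by
      rw [hω, smul_comm s (1 / 2 : ℂ), smul_sub s, smul_comm κ s]
    rw [e] at h
    exact h
  have hGω : EqC G (ω - κ • act 0 (-1) (3 ^ m) 0 ω) := by
    have WW' : EqC (act 0 (-1) (3 ^ m) 0 A') A := (hCom m A hm sA).2.2.2.2.1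
    have h1 : EqC (act 0 (-1) (3 ^ m) 0 ω) ((1 / 2 : ℂ) • (act 0 (-1) (3 ^ m) 0 C - κ • A)) :=
      ((EqC.refl (act 0 (-1) (3 ^ m) 0 C)).sub (WW'.smul κ)).smul (1 / 2 : ℂ)
    have h2 : EqC (ω - κ • act 0 (-1) (3 ^ m) 0 ω)
        (ω - κ • ((1 / 2 : ℂ) • (act 0 (-1) (3 ^ m) 0 C - κ • A))) :=
      (EqC.refl ω).sub (h1.smul κ)
    have h3 : ω - κ • ((1 / 2 : ℂ) • (act 0 (-1) (3 ^ m) 0 C - κ • A)) =
        (1 / 2 : ℂ) • ((A + C) - κ • act 0 (-1) (3 ^ m) 0 (A + C)) := by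
      rw [hω, act_add, ← hA', smul_comm κ (1 / 2 : ℂ), ← smul_sub, smul_sub κ, κκ A, smul_add κ]
      congr 1
      abel
    have h4 : EqC ((1 / 2 : ℂ) • (G - κ • act 0 (-1) (3 ^ m) 0 G))
        ((1 / 2 : ℂ) • ((A + C) - κ • act 0 (-1) (3 ^ m) 0 (A + C))) :=
      (GAC.sub ((GAC.act (dw m)).smul κ)).smul (1 / 2 : ℂ)
    have h5 : EqC ((1 / 2 : ℂ) • (G - κ • act 0 (-1) (3 ^ m) 0 G))
        ((1 / 2 : ℂ) • (G - κ • -(κ • G))) :=
      ((EqC.refl G).sub (hW.smul κ)).smul (1 / 2 : ℂ)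
    have h6 : (1 / 2 : ℂ) • (G - κ • -(κ • G)) = G := by
      rw [smul_neg, κκ G, sub_neg_eq_add, ← two_smul ℂ G, smul_smul]
      norm_num
    rw [h6] at h5
    rw [h3] at h2
    exact h5.symm.trans (h4.trans h2.symm)
  set T : ℤ → ℤ → ℂ := act 0 (-1) (3 ^ (m - 1)) 0 ω with hT
  have lT : Sym3 0 (m - 1) T := (hNrm (m - 1) ω hm1 lω).1
  have uT : act 3 0 0 1 T = act 0 (-1) (3 ^ m) 0 ω := by
    rw [hT, act_act]
    have e : (3 : ℤ) ^ (m - 1) * 3 + 0 * 0 = 3 ^ m := by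
      rw [← pow_succ, Nat.sub_add_cancel (by omega : 1 ≤ m)]
      ring
    rw [e]
    congr 1
  have WT' : EqC (act 0 (-1) (3 ^ (m - 1)) 0 T) ω := WW (m - 1) lω.1
  have ST : EqC (act (-1) 0 0 1 T) (s • T) := by
    exact (SW (m - 1) lω.1).trans (Sω.act (dw (m - 1)))
  have hfin : EqC G ((ω + κ • T) + (-act 3 0 0 1 (κ • T) - (κ • T))) := by
    have uκT : act 3 0 0 1 (κ • T) = κ • act 0 (-1) (3 ^ m) 0 ω := by
      rw [act_smul κ 3 0 0 1 T, uT]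
    refine hGω.trans (EqC.of_eq fun p q _ => ?_)
    rw [uκT]
    simp only [Pi.add_apply, Pi.sub_apply, Pi.neg_apply, Pi.smul_apply]
    ring
  refine ⟨ω + κ • T, κ • T, lω.add (lT.smul κ), lT.smul κ, ?_, ?_, ?_, hfin⟩
  · rw [act_add, act_smul, hκ', neg_smul, neg_neg]
    refine ((EqC.refl (act 0 (-1) (3 ^ (m - 1)) 0 ω)).add (WT'.smul κ)).trans
      (EqC.of_eq fun p q _ => ?_)
    rw [← hT, smul_add κ, κκ T]
    simp only [Pi.add_apply]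
    ring
  · rw [act_add, act_smul, smul_add s, smul_comm s κ]
    exact Sω.add (ST.smul κ)
  · have h1 := evT_congr hH.d0 hfin
    have h2 : evT D (-act 3 0 0 1 (κ • T) - (κ • T)) = 0 := by
      funext i j
      have h3 := (hEvU ℂ _ D (m - 1) (κ • T) hH.d0 hH.c3 (lT.smul κ)).2 i j
      rw [evTb_one, evTb_one] at h3
      rw [map_sub, map_neg]
      simp only [Pi.sub_apply, Pi.neg_apply, Pi.zero_apply]
      rw [h3]
      ring
    rw [hev, map_add, h2, add_zero] at h1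
    exact h1.symm

end Pool.Agent.Helper25.TA
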